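import Pool.Agent.Q185.TreeK.Main

/-!
MP_efe325_an: for every positive measure on the dyadic tree, (a') holds if and only if (b) holds.
-/

open MeasureTheory

namespace Pool.Agent.Results.MP_efe325_an.AbsKernelEquivalence

open Pool.Agent.Q185.TreeK

/-- There is a Hilbert space of functions on `T × T` with reproducing kernel `|k|`, and for every
such space `H` and every measure `μ` on `T`, condition (a') holds if and only if the inclusion
of `H` in `L²(μ ⊗ μ)` is bounded. The scalars `𝕜` are the real or the complex numbers. -/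
theorem result (𝕜 : Type) [RCLike 𝕜] :
    (∃ (H : Type) (_ : NormedAddCommGroup H) (_ : InnerProductSpace 𝕜 H) (_ : CompleteSpace H)
      (_ : RKHS 𝕜 H (Vertex × Vertex) 𝕜),
      ∀ p q, RKHS.kernel H p q (1 : 𝕜) = ((|k p q| : ℤ) : 𝕜)) ∧
    ∀ (H : Type) [NormedAddCommGroup H] [InnerProductSpace 𝕜 H] [CompleteSpace H]
      [RKHS 𝕜 H (Vertex × Vertex) 𝕜],
      (∀ p q, RKHS.kernel H p q (1 : 𝕜) = ((|k p q| : ℤ) : 𝕜)) →
      ∀ μ : Measure Vertex, CondA 𝕜 μ ↔ CondB H μ :=
  ⟨⟨Sp 𝕜, inferInstance, inferInstance, inferInstance, spRKHS 𝕜, sp_kernel 𝕜⟩,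
    fun _ _ _ _ _ hH _ => ⟨b_of_a hH, a_of_b hH⟩⟩

end Pool.Agent.Results.MP_efe325_an.AbsKernelEquivalence
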